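import Mathlib
import Pool.Agent.H19.FactSimple

set_option autoImplicit false

namespace Pool.Agent.Results.MP_bc5942_al.Principal

open Pool.Agent.H19.FactSimple

/-- `G` has a principal (chief) series: a finite strictly increasing chain of normal subgroups
from `1` to `G` with no normal subgroup of `G` strictly between consecutive terms. -/
def HasPrincipalSeries (G : Type) [Group G] : Prop :=
  ∃ (m : ℕ) (N : Fin (m + 1) → Subgroup G), N 0 = ⊥ ∧ N (Fin.last m) = ⊤ ∧
    (∀ i, (N i).Normal) ∧
    ∀ i : Fin m, N i.castSucc < N i.succ ∧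
      ∀ M : Subgroup G, M.Normal → N i.castSucc ≤ M → M ≤ N i.succ →
        M = N i.castSucc ∨ M = N i.succ

lemma of_simple (A : Type) [Group A] (hA : IsSimpleGroup A) : HasPrincipalSeries A := by
  refine ⟨1, ![⊥, ⊤], rfl, rfl, ?_, fun i => ?_⟩
  · intro i
    fin_cases i
    · exact (inferInstance : (⊥ : Subgroup A).Normal)
    · exact (inferInstance : (⊤ : Subgroup A).Normal)
  · obtain rfl : i = 0 := Subsingleton.elim _ _
    exact ⟨bot_lt_top, fun M hM _ _ => hA.eq_bot_or_eq_top_of_normal M hM⟩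

theorem result :
    ∃ (G : Type) (_ : Group G) (A B : Subgroup G),
      (∀ g : G, ∃ a ∈ A, ∃ b ∈ B, g = a * b) ∧
      IsSimpleGroup A ∧ IsSimpleGroup B ∧
      HasPrincipalSeries A ∧ HasPrincipalSeries B ∧ ¬ HasPrincipalSeries G := by
  refine ⟨GG, inferInstance, iB.range, iA.range, factor, simpleB, simpleA, of_simple _ simpleB,
    of_simple _ simpleA, ?_⟩
  rintro ⟨n, s, h0, h1, hn, hs⟩
  refine no_chain n s h0 h1 U U_strict (fun i => (hs i).1.le) fun k i => ?_
  obtain ⟨hlt, hmax⟩ := hs i
  haveI := U_normal k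
  haveI := hn i.castSucc
  haveI := hn i.succ
  rcases hmax ((U k ⊓ s i.succ) ⊔ s i.castSucc) inferInstance le_sup_right
    (sup_le inf_le_right hlt.le) with h2 | h2
  · left
    rw [← h2]; exact le_sup_left
  · right
    intro x hx
    rw [← h2] at hx
    obtain ⟨u, hu, y, hy, e⟩ := Subgroup.mem_sup_of_normal_left.1 hx
    refine ⟨u, hu.1, ?_⟩
    rw [← e, inv_mul_cancel_left]
    exact hy

end Pool.Agent.Results.MP_bc5942_al.Principal
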